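import Mathlib
import Pool.Agent.H31.Cot.Defs
import Pool.Agent.H31.Cot.Final

set_option autoImplicit false

/-!
# A module-finite ring homomorphism that is not relatively left perfect

Let `k` be the field with two elements, `X` a set of cardinality `ℵ₁`, `R` the free associative
algebra on generators `y_x` for `x` in `X`, and `A` the ring of functions `X → k` that are constant
outside a finite set. Sending `y_x` to the indicator function of `x` is a surjection `f : R → A`,
so `A` is a cyclic right `R`-module. The `A`-module `C` of functions with countable support is
cotorsion over `R` but not over `A`.

* Not over `A`: with `E` the functions constant outside a countable set, `E ⧸ C` is flat over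
  `A` and the inclusion of `C` in `E` does not split.
* Over `R`: linear maps into the product `P` of the one-dimensional modules `k_x` extend along
  inclusions with flat cokernel, so one has to lift linear maps `F → P ⧸ C` to `P` for `F` flat.
  By a Zorn argument with pure submodules of cardinality at most `ℵ₁` one may take `F` of
  cardinality at most `ℵ₁`; there the independence of `1 - y_β`, `1 - y_β'` and the other
  generators in the free algebra shows that an element outside `𝔪 F` lies in `(ker χ_β) F` for
  only countably many `β`, and a well-ordering of `F` with countable initial segments does the
  rest.
-/

namespace Pool.Agent.Results.MP_874a88_al.NotRelativelyPerfect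

open H31.Cot

/-- There is a surjective ring homomorphism `f : R → A` onto a commutative ring `A` (so `A` is a
finitely generated, indeed cyclic, right `R`-module) that is not relatively left perfect: some
`A`-module is cotorsion over `R` but not over `A`. -/
theorem result : ∃ (R A : Type) (_ : Ring R) (_ : CommRing A) (f : R →+* A),
    Function.Surjective f ∧ FinitelyGeneratedRight f ∧ ¬ RelativelyLeftPerfect f :=
  main

end Pool.Agent.Results.MP_874a88_al.NotRelativelyPerfect
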